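import Pool.Agent.Helper61.QT.GoalsP
import Pool.Agent.Helper14.QT.TOR
import Pool.Agent.Helper86.QS.G3

/-!
# Project QT+ (MP_0ebdb3_gt), packet TRP: Gauss-Bonnet for torus-invariant metrics
-/

set_option autoImplicit false

open Set

namespace Pool.Agent.Helper15.QT

open Pool.Agent.Helper61 Pool.Agent.Helper61.QG Pool.Agent.Helper61.QT
open Pool.Agent.Helper61.QS (V En rk R4 IsCurv SecNN Gam dd)
open Pool.Agent.Helper61.QM (Model W2 Mab pol2 act2 o1 o2 rot IsRe IsIm)

theorem goalTRP (hPL : G_PL2) (hBX : G_GBX) (hTK : G_TK) (hT3 : G_T3) : G_TRP := by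
  intro a b gM E F G Ar As hab hB hR hT hK
  obtain ⟨hpol, -⟩ := hPL a b hab
  obtain ⟨hsm, -, hpos, -⟩ := hBX W2 (Mab a b) pol2 Reg2 gM hpol hB
  have hexK : ∀ x ∈ Reg2, ∃ K, IsCurv (gB gM pol2) x (hr Ar x) (hs As x) K := fun x hx =>
    Pool.Agent.Helper86.QS.goalG3 _ x (hsm.differentiable (by norm_num) x) (hpos x hx) _ _
  have hnn : ∀ x ∈ Reg2, ∀ w : R4, 0 ≤ gB gM pol2 x w w := by
    intro x hx w
    by_cases hw : w = 0
    · rw [hw]
      simp
    · exact (hpos x hx w hw).le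
  have hk : Continuous (kap2 E F G) :=
    Pool.Agent.Helper14.QT.kap2_cont hT.smE hT.smF hT.smG hT.pos
  have hp : Continuous fun x : R4 => ((x.1, x.2.1) : ℝ × ℝ) :=
    continuous_fst.prodMk (continuous_fst.comp continuous_snd)
  have hc : Continuous fun x : R4 => kap2 E F G (x.1, x.2.1) := hk.comp hp
  have hcl : IsClosed {x : R4 | 0 ≤ kap2 E F G (x.1, x.2.1)} := isClosed_le continuous_const hc
  have hsub : Reg2 ⊆ {x : R4 | 0 ≤ kap2 E F G (x.1, x.2.1)} := by
    intro x hx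
    obtain ⟨K, hK'⟩ := hexK x hx
    have h := hK x hx K hK'
    have h2 := hTK a b gM E F G Ar As hab hB hR hT x hx K hK'
    have h3 := hnn x hx (0, 0, (Om Ar As (x.1, x.2.1)).1, (Om Ar As (x.1, x.2.1)).2)
    have h4 : 0 ≤ kap2 E F G (x.1, x.2.1) := by linarith
    exact h4
  have hall : ∀ x : R4, 0 ≤ kap2 E F G (x.1, x.2.1) := by
    intro x
    have h := closure_minimal hsub hcl (hpol.dense x)
    exact h
  have h0 := hT3 E F G hT.smE hT.smF hT.smG hT.pos hT.perr hT.pers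
    fun z => hall (z.1, z.2, 0, 0)
  have hreg : ∀ x ∈ Reg2, Om Ar As (x.1, x.2.1) = 0 ∧
      IsCurv (gB gM pol2) x (hr Ar x) (hs As x) 0 := by
    intro x hx
    obtain ⟨K, hK'⟩ := hexK x hx
    have h := hK x hx K hK'
    have h2 := hTK a b gM E F G Ar As hab hB hR hT x hx K hK'
    have h3 := hnn x hx (0, 0, (Om Ar As (x.1, x.2.1)).1, (Om Ar As (x.1, x.2.1)).2)
    rw [h0] at h2
    have h4 : gB gM pol2 x (0, 0, (Om Ar As (x.1, x.2.1)).1, (Om Ar As (x.1, x.2.1)).2)
        (0, 0, (Om Ar As (x.1, x.2.1)).1, (Om Ar As (x.1, x.2.1)).2) = 0 := by linarith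
    have h5 : K = 0 := by
      rw [h4] at h2
      linarith
    rw [h5] at hK'
    refine ⟨?_, hK'⟩
    by_contra hne
    have h6 : ((0, 0, (Om Ar As (x.1, x.2.1)).1, (Om Ar As (x.1, x.2.1)).2) : R4) ≠ 0 := by
      intro he
      apply hne
      have e1 := congrArg (fun y : R4 => y.2.2.1) he
      have e2 := congrArg (fun y : R4 => y.2.2.2) he
      exact Prod.ext e1 e2
    exact absurd h4 (hpos x hx _ h6).ne'
  refine ⟨fun z => ?_, fun x hx => (hreg x hx).2⟩
  have hOm : Continuous (Om Ar As) := by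
    unfold Om
    exact ((hT.smAs.continuous_fderiv (by norm_num)).clm_apply continuous_const).sub
      ((hT.smAr.continuous_fderiv (by norm_num)).clm_apply continuous_const)
  have hcl2 : IsClosed {x : R4 | Om Ar As (x.1, x.2.1) = 0} :=
    isClosed_eq (hOm.comp hp) continuous_const
  have h := closure_minimal (fun x hx => (hreg x hx).1) hcl2 (hpol.dense (z.1, z.2, 0, 0))
  exact h

end Pool.Agent.Helper15.QT
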